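import Mathlib
import Pool.Agent.W876.Prox.Omega

/-!
# A colouring of the triples of a set of size `2 ^ 2 ^ ℵ₀`

Every set of size `ℵ₁` contains finite homogeneous sets of both classes of every size.
-/

namespace Pool.Agent.W876.Trip

open Cardinal Set Pool.Agent.Helper126.Lam.Forc Pool.Agent.W876.Prox.Omega

open scoped Classical

set_option linter.unusedSectionVars false

section

variable {ι : Type} [LinearOrder ι] [WellFoundedLT ι]

/-- `x` and `y` agree below `i` and differ at `i` -/
def Br (x y : ι → Bool) (i : ι) : Prop := (∀ j < i, x j = y j) ∧ x i ≠ y i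

theorem Br.symm {x y : ι → Bool} {i : ι} (h : Br x y i) : Br y x i :=
  ⟨fun j hj => (h.1 j hj).symm, h.2.symm⟩

theorem Br.unique {x y : ι → Bool} {i j : ι} (h : Br x y i) (h' : Br x y j) : i = j := by
  rcases lt_trichotomy i j with hij | hij | hij
  · exact absurd (h'.1 i hij) h.2
  · exact hij
  · exact absurd (h.1 j hij) h'.2

theorem Br.ne {x y : ι → Bool} {i : ι} (h : Br x y i) : x ≠ y := fun h' => h.2 (by rw [h'])

theorem exists_br {x y : ι → Bool} (h : x ≠ y) : ∃ i, Br x y i := by
  have hne : {i | x i ≠ y i}.Nonempty := Function.ne_iff.1 h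
  refine ⟨wellFounded_lt.min _ hne, fun j hj => ?_, wellFounded_lt.min_mem _ hne⟩
  by_contra hcon
  exact wellFounded_lt.not_lt_min _ hcon hj

/-- the well-ordering used -/
def W (x y : ι → Bool) : Prop := WellOrderingRel x y

theorem W.asymm {x y : ι → Bool} (h : W x y) : ¬ W y x :=
  fun h' => Std.Asymm.asymm (r := WellOrderingRel) x y h h'

/-- the first class of the colouring -/
def Col (r : ι → ℝ) (T : Finset (ι → Bool)) : Prop :=
  ∃ l y z i j, T = {l, y, z} ∧ Br l y i ∧ Br l z i ∧ Br y z j ∧ i < j ∧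
    ((W y l ∧ W z l ∧ l i = true) ∨ (¬ (W y l ∧ W z l) ∧ r i < r j))

theorem col_iff {r : ι → ℝ} {l y z : ι → Bool} {i j : ι} (h1 : Br l y i) (h2 : Br l z i)
    (h3 : Br y z j) (hij : i < j) :
    Col r {l, y, z} ↔
      ((W y l ∧ W z l ∧ l i = true) ∨ (¬ (W y l ∧ W z l) ∧ r i < r j)) := by
  constructor
  · rintro ⟨l', y', z', i', j', hT, a1, a2, a3, hij', hc⟩
    have hl : l ∈ ({l', y', z'} : Finset (ι → Bool)) := by rw [← hT]; simp
    have hy : y ∈ ({l', y', z'} : Finset (ι → Bool)) := by rw [← hT]; simp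
    have hz : z ∈ ({l', y', z'} : Finset (ι → Bool)) := by rw [← hT]; simp
    have hl' : l' ∈ ({l, y, z} : Finset (ι → Bool)) := by rw [hT]; simp
    have n1 := h1.ne
    have n2 := h2.ne
    have n3 := h3.ne
    simp only [Finset.mem_insert, Finset.mem_singleton] at hl hy hz hl'
    have key : ∀ w, w = y' ∨ w = z' → Br l' w i' := by
      rintro w (rfl | rfl)
      · exact a1
      · exact a2
    rcases hl' with h | h | h
    · subst h
      have hy' : y = y' ∨ y = z' := by
        rcases hy with h | h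
        · exact absurd h.symm n1
        · exact h
      have hz' : z = y' ∨ z = z' := by
        rcases hz with h | h
        · exact absurd h.symm n2
        · exact h
      have e1 : i' = i := (key y hy').unique h1
      subst e1
      rcases hy' with rfl | rfl
      · have : z = z' := by
          rcases hz' with h | h
          · exact absurd h.symm n3
          · exact h
        subst this
        have e2 : j' = j := a3.unique h3
        subst e2
        exact hc
      · have : z = y' := by
          rcases hz' with h | h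
          · exact h
          · exact absurd h.symm n3
        subst this
        have e2 : j' = j := a3.symm.unique h3
        subst e2
        rcases hc with ⟨c1, c2, c3⟩ | ⟨c1, c2⟩
        · exact Or.inl ⟨c2, c1, c3⟩
        · exact Or.inr ⟨fun h => c1 ⟨h.2, h.1⟩, c2⟩
    · subst h
      exfalso
      have e1 : i' = i := (key l (by
        rcases hl with h | h
        · exact absurd h n1
        · exact h)).unique h1.symm
      have e2 : i' = j := (key z (by
        rcases hz with h | h
        · exact absurd h.symm n3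
        · exact h)).unique h3
      exact absurd (e1.symm.trans e2) hij.ne
    · subst h
      exfalso
      have e1 : i' = i := (key l (by
        rcases hl with h | h
        · exact absurd h n2
        · exact h)).unique h2.symm
      have e2 : i' = j := (key y (by
        rcases hy with h | h
        · exact absurd h n3
        · exact h)).unique h3.symm
      exact absurd (e1.symm.trans e2) hij.ne
  · intro hc
    exact ⟨l, y, z, i, j, rfl, h1, h2, h3, hij, hc⟩

/-- the set of indices of an uncountable family which agree with `v` below `j` -/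
theorem split (x : K1 → ι → Bool) (hx : Function.Injective x)
    (hc : ∀ b : ι → Bool, {i | ∃ α, Br (x α) b i}.Countable) (B : Set K1) (hB : ¬ B.Countable) :
    ∃ (v : ι → Bool) (j : ι),
      (¬ {α | α ∈ B ∧ (∀ k < j, x α k = v k) ∧ x α j = true}.Countable) ∧
      ¬ {α | α ∈ B ∧ (∀ k < j, x α k = v k) ∧ x α j = false}.Countable := by
  by_contra hcon
  push Not at hcon
  let b : ι → Bool := fun i => decide
    (∃ v : ι → Bool, ¬ {α | α ∈ B ∧ (∀ k < i, x α k = v k) ∧ x α i = true}.Countable)
  have hIb := hc b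
  -- the set of those leaving `b` at `i` is countable, given that few leave before
  have hlev : ∀ i, {α | α ∈ B ∧ Br (x α) b i}.Countable := by
    intro i
    induction i using WellFoundedLT.induction with
    | ind i ih =>
      have hbefore : {α | α ∈ B ∧ ¬ ∀ k < i, x α k = b k}.Countable := by
        refine ((hIb.biUnion (t := fun k _ => {α | α ∈ B ∧ k < i ∧ Br (x α) b k})
          fun k _ => ?_)).mono ?_
        · by_cases hk : k < i
          · exact (ih k hk).mono fun α (hα : α ∈ B ∧ k < i ∧ Br (x α) b k) =>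
              show α ∈ B ∧ Br (x α) b k from ⟨hα.1, hα.2.2⟩
          · refine Set.Countable.mono ?_ Set.countable_empty
            intro α hα
            exact absurd hα.2.1 hk
        · rintro α ⟨hα, hne⟩
          push Not at hne
          have hne' : {k | x α k ≠ b k}.Nonempty := by
            obtain ⟨k, _, hk⟩ := hne
            exact ⟨k, hk⟩
          obtain ⟨k, hki, hk⟩ := hne
          have hxb : x α ≠ b := fun h => hk (by rw [h])
          obtain ⟨m, hm⟩ := exists_br hxb
          have hmi : m < i := by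
            by_contra hmi
            exact hk (hm.1 k (hki.trans_le (not_lt.1 hmi)))
          refine mem_biUnion (show m ∈ {i | ∃ α, Br (x α) b i} from ⟨α, hm⟩) ?_
          exact ⟨hα, hmi, hm⟩
      by_cases hbi : b i = true
      · have hex : ∃ v : ι → Bool,
            ¬ {α | α ∈ B ∧ (∀ k < i, x α k = v k) ∧ x α i = true}.Countable := by
          simpa [b] using hbi
        obtain ⟨v, hv⟩ := hex
        -- `v` and `b` agree below `i`
        have hvb : ∀ k < i, v k = b k := by
          intro k hk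
          by_contra hvk
          refine hv (hbefore.mono ?_)
          rintro α ⟨hα, h1, _⟩
          exact ⟨hα, fun h => hvk (by rw [← h1 k hk, h k hk])⟩
        have h2 := hcon v i hv
        refine h2.mono ?_
        rintro α ⟨hα, hbr⟩
        refine ⟨hα, fun k hk => by rw [hbr.1 k hk, hvb k hk], ?_⟩
        have := hbr.2
        rw [hbi] at this
        simpa using this
      · have hnex : ∀ v : ι → Bool,
            {α | α ∈ B ∧ (∀ k < i, x α k = v k) ∧ x α i = true}.Countable := by
          have : ¬ ∃ v : ι → Bool,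
            ¬ {α | α ∈ B ∧ (∀ k < i, x α k = v k) ∧ x α i = true}.Countable := by
            simpa [b] using hbi
          intro v
          by_contra hv
          exact this ⟨v, hv⟩
        refine (hnex b).mono ?_
        rintro α ⟨hα, hbr⟩
        refine ⟨hα, hbr.1, ?_⟩
        have := hbr.2
        have hbf : b i = false := by simpa using hbi
        rw [hbf] at this
        simpa using this
  refine hB ?_
  have h1 : {α | α ∈ B ∧ x α = b}.Countable :=
    Set.Subsingleton.countable fun α hα β hβ => hx (hα.2.trans hβ.2.symm)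
  refine (h1.union (hIb.biUnion (t := fun k _ => {α | α ∈ B ∧ Br (x α) b k})
    fun k _ => hlev k)).mono ?_
  intro α hα
  by_cases hxb : x α = b
  · exact Or.inl ⟨hα, hxb⟩
  · obtain ⟨m, hm⟩ := exists_br hxb
    exact Or.inr (mem_biUnion (show m ∈ {i | ∃ α, Br (x α) b i} from ⟨α, hm⟩) ⟨hα, hm⟩)

theorem unbounded_of_uncountable {B : Set K1} (hB : ¬ B.Countable) (b : K1) : ∃ α ∈ B, b < α := by
  by_contra hcon
  push Not at hcon
  exact hB ((countable_Iic b).mono fun α hα => hcon α hα)

theorem case2 (r : ι → ℝ) (x : K1 → ι → Bool) (hx : Function.Injective x)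
    (hmono : ∀ α β, α < β → W (x α) (x β))
    (hc : ∀ b : ι → Bool, {i | ∃ α, Br (x α) b i}.Countable) (a : Bool) :
    ∀ n : ℕ, ∀ B : Set K1, ¬ B.Countable →
      ∃ Y : Finset K1, (Y : Set K1) ⊆ B ∧ Y.card = n ∧
        ∀ T ⊆ Y, T.card = 3 → (Col r (T.image x) ↔ a = true) := by
  intro n
  induction n with
  | zero =>
    intro B _
    refine ⟨∅, by simp, rfl, fun T hT h3 => ?_⟩
    rw [Finset.subset_empty.1 hT] at h3
    simp at h3
  | succ n ih =>
    intro B hB
    obtain ⟨v, j, h1, h2⟩ := split x hx hc B hB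
    have hboth : ∀ c : Bool, ¬ {α | α ∈ B ∧ (∀ k < j, x α k = v k) ∧ x α j = c}.Countable := by
      intro c
      cases c
      · exact h2
      · exact h1
    obtain ⟨Y, hY1, hY2, hY3⟩ := ih _ (hboth (!a))
    obtain ⟨b, hb⟩ := bounded_finite (Y : Set K1) Y.finite_toSet
    obtain ⟨α, hα, hbα⟩ := unbounded_of_uncountable (hboth a) b
    have hαY : ∀ β ∈ Y, β < α := fun β hβ => (hb β hβ).trans hbα
    have hαn : α ∉ Y := fun h => lt_irrefl _ (hαY α h)
    refine ⟨insert α Y, ?_, by rw [Finset.card_insert_of_notMem hαn, hY2], ?_⟩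
    · rw [Finset.coe_insert]
      rintro β (rfl | hβ)
      · exact hα.1
      · exact (hY1 hβ).1
    · intro T hT h3
      by_cases hαT : α ∈ T
      · have hcard : (T.erase α).card = 2 := by rw [Finset.card_erase_of_mem hαT, h3]
        obtain ⟨β, γ, hβγ, hE⟩ := Finset.card_eq_two.1 hcard
        have hTE : T = {α, β, γ} := by
          rw [← Finset.insert_erase hαT, hE]
        have hβ : β ∈ Y := by
          have : β ∈ T.erase α := by rw [hE]; simp
          have h4 := hT (Finset.mem_of_mem_erase this)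
          exact Finset.mem_of_mem_insert_of_ne h4 (Finset.ne_of_mem_erase this)
        have hγ : γ ∈ Y := by
          have : γ ∈ T.erase α := by rw [hE]; simp
          have h4 := hT (Finset.mem_of_mem_erase this)
          exact Finset.mem_of_mem_insert_of_ne h4 (Finset.ne_of_mem_erase this)
        have eβ := hY1 hβ
        have eγ := hY1 hγ
        have b1 : Br (x α) (x β) j :=
          ⟨fun k hk => by rw [hα.2.1 k hk, eβ.2.1 k hk], by rw [hα.2.2, eβ.2.2]; cases a <;> simp⟩
        have b2 : Br (x α) (x γ) j :=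
          ⟨fun k hk => by rw [hα.2.1 k hk, eγ.2.1 k hk], by rw [hα.2.2, eγ.2.2]; cases a <;> simp⟩
        obtain ⟨m, hm⟩ := exists_br (show x β ≠ x γ from fun h => hβγ (hx h))
        have hjm : j < m := by
          by_contra hjm
          rcases lt_or_eq_of_le (not_lt.1 hjm) with h | h
          · exact hm.2 (by rw [eβ.2.1 m h, eγ.2.1 m h])
          · subst h
            exact hm.2 (by rw [eβ.2.2, eγ.2.2])
        have himg : T.image x = {x α, x β, x γ} := by
          rw [hTE]; simp [Finset.image_insert]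
        rw [himg, col_iff b1 b2 hm hjm]
        have w1 : W (x β) (x α) := hmono _ _ (hαY β hβ)
        have w2 : W (x γ) (x α) := hmono _ _ (hαY γ hγ)
        rw [hα.2.2]
        simp [w1, w2]
      · exact hY3 T (fun t ht => Finset.mem_of_mem_insert_of_ne (hT ht)
          (fun h => hαT (h ▸ ht))) h3

/-- many points have uncountably many points of a set of reals above them -/
theorem exists_above {J : Type*} (r : J → ℝ) (hr : Function.Injective r) (I : Set J)
    (hI : ¬ I.Countable) : ∃ i ∈ I, ¬ {i' | i' ∈ I ∧ r i < r i'}.Countable := by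
  by_contra hcon
  push Not at hcon
  have h1 : (⋃ q : ℚ, {i | i ∈ I ∧ (q : ℝ) < r i ∧
      {i' | i' ∈ I ∧ (q : ℝ) < r i'}.Countable}).Countable := by
    refine Set.countable_iUnion fun q => ?_
    by_cases hq : {i' | i' ∈ I ∧ (q : ℝ) < r i'}.Countable
    · exact hq.mono fun i hi => show i ∈ I ∧ (q : ℝ) < r i from ⟨hi.1, hi.2.1⟩
    · refine Set.Countable.mono ?_ Set.countable_empty
      intro i hi
      exact absurd hi.2.2 hq
  have h2 : (I \ ⋃ q : ℚ, {i | i ∈ I ∧ (q : ℝ) < r i ∧
      {i' | i' ∈ I ∧ (q : ℝ) < r i'}.Countable}).Subsingleton := by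
    intro i hi i' hi'
    by_contra hne
    have key : ∀ s t : J, s ∈ I → t ∈ I \ ⋃ q : ℚ, {i | i ∈ I ∧ (q : ℝ) < r i ∧
      {i' | i' ∈ I ∧ (q : ℝ) < r i'}.Countable} → r s < r t → False := by
      intro s t hs ht hst
      obtain ⟨q, hq1, hq2⟩ := exists_rat_btwn hst
      refine ht.2 (mem_iUnion.2 ⟨q, show t ∈ I ∧ _ ∧ _ from ⟨ht.1, hq2, (hcon s hs).mono ?_⟩⟩)
      rintro w ⟨hw, hqw⟩
      exact ⟨hw, hq1.trans hqw⟩
    rcases lt_or_gt_of_ne (fun h => hne (hr h) : r i ≠ r i') with h | h
    · exact key i i' hi.1 hi' h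
    · exact key i' i hi'.1 hi h
  refine hI ((h2.countable.union h1).mono ?_)
  intro i hi
  by_cases h : i ∈ ⋃ q : ℚ, {i | i ∈ I ∧ (q : ℝ) < r i ∧
      {i' | i' ∈ I ∧ (q : ℝ) < r i'}.Countable}
  · exact Or.inr h
  · exact Or.inl ⟨hi, h⟩

theorem exists_side {J : Type*} (r : J → ℝ) (hr : Function.Injective r) (I : Set J)
    (hI : ¬ I.Countable) (a : Bool) :
    ∃ i ∈ I, ¬ {i' | i' ∈ I ∧ r i ≠ r i' ∧ (r i < r i' ↔ a = true)}.Countable := by
  cases a
  · obtain ⟨i, hi, h⟩ := exists_above (fun j => - r j)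
      (fun s t h => hr (neg_injective h)) I hI
    refine ⟨i, hi, fun hc => h (hc.mono ?_)⟩
    rintro i' ⟨h1, h2⟩
    have h3 : r i' < r i := by simpa using h2
    exact ⟨h1, h3.ne', by simpa using h3.le⟩
  · obtain ⟨i, hi, h⟩ := exists_above r hr I hI
    refine ⟨i, hi, fun hc => h (hc.mono ?_)⟩
    rintro i' ⟨h1, h2⟩
    exact ⟨h1, h2.ne, by simpa using h2⟩

theorem sorted_triple {J : Type*} [LinearOrder J] (T : Finset J) (hT : T.card = 3) :
    ∃ a b c, a < b ∧ b < c ∧ T = {a, b, c} := by
  obtain ⟨x, y, z, hxy, hxz, hyz, rfl⟩ := Finset.card_eq_three.1 hT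
  rcases lt_or_gt_of_ne hxy with h1 | h1 <;> rcases lt_or_gt_of_ne hxz with h2 | h2 <;>
    rcases lt_or_gt_of_ne hyz with h3 | h3
  · exact ⟨x, y, z, h1, h3, rfl⟩
  · exact ⟨x, z, y, h2, h3, by ext w; simp only [Finset.mem_insert, Finset.mem_singleton]; tauto⟩
  · exact absurd (h1.trans h3) (not_lt.2 h2.le)
  · exact ⟨z, x, y, h2, h1, by ext w; simp only [Finset.mem_insert, Finset.mem_singleton]; tauto⟩
  · exact ⟨y, x, z, h1, h2, by ext w; simp only [Finset.mem_insert, Finset.mem_singleton]; tauto⟩
  · exact absurd (h1.trans h2) (not_lt.2 h3.le)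
  · exact ⟨y, z, x, h3, h2, by ext w; simp only [Finset.mem_insert, Finset.mem_singleton]; tauto⟩
  · exact ⟨z, y, x, h3, h1, by ext w; simp only [Finset.mem_insert, Finset.mem_singleton]; tauto⟩

theorem case1 (r : ι → ℝ) (hr : Function.Injective r) (x : K1 → ι → Bool)
    (hmono : ∀ α β, α < β → W (x α) (x β)) (b : ι → Bool)
    (hb : ¬ {i | ∃ α, Br (x α) b i}.Countable) (a : Bool) (n : ℕ) :
      ∃ Y : Finset K1, Y.card = n ∧ ∀ T ⊆ Y, T.card = 3 → (Col r (T.image x) ↔ a = true) := by
  let I : Set ι := {i | ∃ α, Br (x α) b i}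
  have hI : ∀ i ∈ I, ∃ α, Br (x α) b i := fun i hi => hi
  let f : ι → K1 := fun i => if h : i ∈ I then (hI i h).choose else Classical.arbitrary _
  have hf : ∀ i ∈ I, Br (x (f i)) b i := by
    intro i hi
    simp only [f, dif_pos hi]
    exact (hI i hi).choose_spec
  have hfinj : ∀ i ∈ I, ∀ i' ∈ I, f i = f i' → i = i' := by
    intro i hi i' hi' h
    have h1 := hf i hi
    rw [h] at h1
    exact h1.unique (hf i' hi')
  -- an uncountable part with countable initial segments
  let I' : Set ι := {i | i ∈ I ∧ {i' | i' ∈ I ∧ i' < i}.Countable}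
  have hI' : ¬ I'.Countable := by
    intro hcount
    have hne : (I \ I').Nonempty := by
      by_contra hemp
      rw [Set.not_nonempty_iff_eq_empty, Set.sdiff_eq_empty] at hemp
      exact hb (hcount.mono hemp)
    have hm := wellFounded_lt.min_mem _ hne
    refine hm.2 ⟨hm.1, hcount.mono ?_⟩
    rintro i ⟨hi, hlt⟩
    by_contra hni
    exact wellFounded_lt.not_lt_min _ (show i ∈ I \ I' from ⟨hi, hni⟩) hlt
  have key : ∀ n : ℕ, ∀ J ⊆ I', ¬ J.Countable → ∃ Z : Finset ι, (Z : Set ι) ⊆ J ∧ Z.card = n ∧
      ∀ i ∈ Z, ∀ i' ∈ Z, i < i' → f i < f i' ∧ (r i < r i' ↔ a = true) := by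
    intro n
    induction n with
    | zero => intro J _ _; exact ⟨∅, by simp, rfl, by simp⟩
    | succ n ih =>
      intro J hJ hJc
      obtain ⟨i, hi, hii⟩ := exists_side r hr J hJc a
      have hiI' := hJ hi
      have h1 : ¬ {i' | i' ∈ J ∧ i < i' ∧ f i < f i' ∧ (r i < r i' ↔ a = true)}.Countable := by
        intro hcon
        refine hii ((hcon.union ((hiI'.2.union (Set.countable_singleton i)).union
          (show {i' | i' ∈ I ∧ f i' ≤ f i}.Countable from ?_))).mono ?_)
        · exact Set.MapsTo.countable_of_injOn (f := f) (t := Set.Iic (f i))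
            (fun i' hi' => hi'.2) (fun s hs t ht h => hfinj s hs.1 t ht.1 h) (countable_Iic _)
        · rintro i' ⟨g1, g2, g3⟩
          have hi'I : i' ∈ I := (hJ g1).1
          rcases lt_trichotomy i i' with h | h | h
          · by_cases hfi : f i < f i'
            · exact Or.inl ⟨g1, h, hfi, g3⟩
            · exact Or.inr (Or.inr ⟨hi'I, not_lt.1 hfi⟩)
          · exact Or.inr (Or.inl (Or.inr h.symm))
          · exact Or.inr (Or.inl (Or.inl ⟨hi'I, h⟩))
      obtain ⟨Z, hZ1, hZ2, hZ3⟩ := ih _ (fun i' hi' => hJ hi'.1) h1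
      have hin : i ∉ Z := fun h => lt_irrefl _ (hZ1 h).2.1
      refine ⟨insert i Z, ?_, by rw [Finset.card_insert_of_notMem hin, hZ2], ?_⟩
      · rw [Finset.coe_insert]
        rintro w (rfl | hw)
        · exact hi
        · exact (hZ1 hw).1
      · intro s hs t ht hst
        rcases Finset.mem_insert.1 hs with rfl | hs'
        · rcases Finset.mem_insert.1 ht with rfl | ht'
          · exact absurd hst (lt_irrefl _)
          · exact (hZ1 ht').2.2
        · rcases Finset.mem_insert.1 ht with rfl | ht'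
          · exact absurd (hst.trans (hZ1 hs').2.1) (lt_irrefl _)
          · exact hZ3 s hs' t ht' hst
  obtain ⟨Z, hZ1, hZ2, hZ3⟩ := key n I' le_rfl hI'
  have hinj : Set.InjOn f (Z : Set ι) :=
    fun s hs t ht h => hfinj s (hZ1 hs).1 t (hZ1 ht).1 h
  refine ⟨Z.image f, by rw [Finset.card_image_of_injOn hinj, hZ2], ?_⟩
  intro T hT h3
  obtain ⟨U, hU, rfl⟩ := Finset.subset_image_iff.1 hT
  have hUinj : Set.InjOn f (U : Set ι) := hinj.mono hU
  rw [Finset.card_image_of_injOn hUinj] at h3
  obtain ⟨i1, i2, i3, h12, h23, rfl⟩ := sorted_triple U h3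
  have m1 : i1 ∈ Z := hU (by simp)
  have m2 : i2 ∈ Z := hU (by simp)
  have m3 : i3 ∈ Z := hU (by simp)
  have c1 := hf i1 (hZ1 m1).1
  have c2 := hf i2 (hZ1 m2).1
  have c3 := hf i3 (hZ1 m3).1
  have b1 : Br (x (f i1)) (x (f i2)) i1 :=
    ⟨fun k hk => by rw [c1.1 k hk, c2.1 k (hk.trans h12)], by rw [c2.1 i1 h12]; exact c1.2⟩
  have b2 : Br (x (f i1)) (x (f i3)) i1 :=
    ⟨fun k hk => by rw [c1.1 k hk, c3.1 k (hk.trans (h12.trans h23))],
      by rw [c3.1 i1 (h12.trans h23)]; exact c1.2⟩
  have b3 : Br (x (f i2)) (x (f i3)) i2 :=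
    ⟨fun k hk => by rw [c2.1 k hk, c3.1 k (hk.trans h23)], by rw [c3.1 i2 h23]; exact c2.2⟩
  have himg : (({i1, i2, i3} : Finset ι).image f).image x = {x (f i1), x (f i2), x (f i3)} := by
    simp [Finset.image_insert]
  rw [himg, col_iff b1 b2 b3 h12]
  have w1 : W (x (f i1)) (x (f i2)) := hmono _ _ (hZ3 i1 m1 i2 m2 h12).1
  have hnw : ¬ (W (x (f i2)) (x (f i1)) ∧ W (x (f i3)) (x (f i1))) := fun h => w1.asymm h.1
  rw [← (hZ3 i1 m1 i2 m2 h12).2]
  constructor
  · rintro (⟨g1, g2, _⟩ | ⟨_, g⟩)
    · exact absurd ⟨g1, g2⟩ hnw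
    · exact g
  · intro g
    exact Or.inr ⟨hnw, g⟩

theorem both (r : ι → ℝ) (hr : Function.Injective r) (x : K1 → ι → Bool)
    (hx : Function.Injective x)
    (hmono : ∀ α β, α < β → W (x α) (x β)) (a : Bool) (n : ℕ) :
      ∃ Y : Finset K1, Y.card = n ∧ ∀ T ⊆ Y, T.card = 3 → (Col r (T.image x) ↔ a = true) := by
  by_cases h : ∀ b : ι → Bool, {i | ∃ α, Br (x α) b i}.Countable
  · obtain ⟨Y, _, h2, h3⟩ := case2 r x hx hmono h a n Set.univ (by
      intro hcount
      have h5 : #K1 ≤ ℵ₀ := by
        have := Cardinal.le_aleph0_iff_set_countable.2 hcount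
        rwa [Cardinal.mk_univ] at this
      rw [mk_K1] at h5
      exact absurd h5 (not_le.2 aleph0_lt_aleph_one))
    exact ⟨Y, h2, h3⟩
  · push Not at h
    obtain ⟨b, hb⟩ := h
    exact case1 r hr x hmono b hb a n

end

end Pool.Agent.W876.Trip
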